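import Pool.Agent.Y939.XN.Perm

set_option autoImplicit false

/-!
# Nef classes at a relative distance of the sixth power
-/

namespace Pool.Agent.Y939.XN

open MvPolynomial Pool.Agent.W609 Pool.Agent.W609.CR Pool.Agent.TH167 Pool.Agent.TH167.SH

/-- The self-intersection of a negative curve with separated multiplicities. -/
theorem neg_bound {s : ℕ} {e k μ : ℕ} {u : Fin s → ℕ} (hk : 1 ≤ k)
    (hkS : ∑ i, u i ^ 2 = e ^ 2 + k) (hμ : ∀ i, u i ≤ μ) {i1 : Fin s} (hi1 : 1 ≤ u i1)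
    (hsp : ∀ i j, u i ≠ u j → (k : ℤ) ≤ ((u i : ℤ) - u j) ^ 2)
    (hfew : ∀ W, (∀ i, u i ≤ W) → 144 * W ^ 2 ≤ max (∑ i, u i ^ 2) (e ^ 2) →
      (16 * ((Finset.univ.image u).erase 0).card + 8) * W ^ 2 ≤ max (∑ i, u i ^ 2) (e ^ 2) →
      ∑ i, u i ^ 2 ≤ e ^ 2)
    (h144 : 144 * μ ^ 2 ≤ ∑ i, u i ^ 2) :
    √(k : ℝ) * (((∑ i, u i ^ 2 : ℕ) : ℝ) - 24 * (μ : ℝ) ^ 2) ≤ 16 * (μ : ℝ) ^ 3 := by
  classical
  obtain ⟨A, hA⟩ : ∃ A, A = (Finset.univ.image u).erase 0 := ⟨_, rfl⟩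
  have hmax : max (∑ i, u i ^ 2) (e ^ 2) = ∑ i, u i ^ 2 := max_eq_left (by omega)
  have h1 : ∑ i, u i ^ 2 < (16 * A.card + 8) * μ ^ 2 := by
    by_contra hcon
    push Not at hcon
    have h2 := hfew μ hμ (by rw [hmax]; exact h144) (by rw [hmax, ← hA]; exact hcon)
    omega
  have hA1 : 1 ≤ A.card := by
    rw [Nat.succ_le_iff, Finset.card_pos]
    refine ⟨u i1, ?_⟩
    rw [hA, Finset.mem_erase]
    exact ⟨by omega, Finset.mem_image_of_mem _ (Finset.mem_univ _)⟩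
  obtain ⟨q, hq⟩ : ∃ q, q = Nat.sqrt (k - 1) + 1 := ⟨_, rfl⟩
  have hqk : k ≤ q ^ 2 := by
    have h2 := Nat.lt_succ_sqrt' (k - 1)
    rw [hq]
    have h3 : (k - 1).sqrt.succ = (k - 1).sqrt + 1 := rfl
    rw [h3] at h2
    omega
  have hcard : A.card ≤ (μ - 1) / q + 1 := by
    refine card_spaced (by omega) (fun a ha => ?_) fun a ha b hb hab => ?_
    · rw [hA, Finset.mem_erase, Finset.mem_image] at ha
      obtain ⟨h2, i, -, rfl⟩ := ha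
      exact ⟨by omega, hμ i⟩
    · rw [hA, Finset.mem_erase, Finset.mem_image] at ha hb
      obtain ⟨h2, i, -, rfl⟩ := ha
      obtain ⟨h3, j, -, rfl⟩ := hb
      have h4 := hsp j i hab.ne'
      obtain ⟨d, hd⟩ : ∃ d, u j = u i + d := ⟨u j - u i, by omega⟩
      rw [hd] at h4
      push_cast at h4
      have h5 : (k : ℤ) ≤ (d : ℤ) ^ 2 := by
        have e1 : ((u i : ℤ) + d - u i) ^ 2 = (d : ℤ) ^ 2 := by ring
        rwa [e1] at h4
      have h6 : k ≤ d ^ 2 := by exact_mod_cast h5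
      have h7 : Nat.sqrt (k - 1) < d := Nat.sqrt_lt'.2 (by omega)
      omega
  have hmul : (A.card - 1) * q ≤ μ - 1 :=
    le_trans (Nat.mul_le_mul_right q (by omega)) (Nat.div_mul_le_self (μ - 1) q)
  obtain ⟨y, hy⟩ : ∃ y : ℝ, y = √(k : ℝ) := ⟨_, rfl⟩
  have hy0 : 0 ≤ y := by rw [hy]; exact Real.sqrt_nonneg _
  have hyq : y ≤ q := by
    rw [hy]
    refine Real.sqrt_le_iff.2 ⟨Nat.cast_nonneg _, ?_⟩
    exact_mod_cast hqk
  obtain ⟨c, hc⟩ : ∃ c, A.card = c + 1 := ⟨A.card - 1, by omega⟩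
  rw [hc, Nat.add_sub_cancel] at hmul
  have hyc : (c : ℝ) * y ≤ μ := by
    have h2 : (c : ℝ) * y ≤ c * q := mul_le_mul_of_nonneg_left hyq (Nat.cast_nonneg _)
    have h3 : ((c * q : ℕ) : ℝ) ≤ ((μ : ℕ) : ℝ) := by exact_mod_cast (by omega : c * q ≤ μ)
    push_cast at h3
    linarith
  rw [← hy]
  have h2 : ((∑ i, u i ^ 2 : ℕ) : ℝ) ≤ (16 * ((c : ℝ) + 1) + 8) * (μ : ℝ) ^ 2 := by
    rw [hc] at h1
    exact_mod_cast h1.le
  have h3 : y * (((∑ i, u i ^ 2 : ℕ) : ℝ) - 24 * (μ : ℝ) ^ 2) ≤ y * (16 * c * (μ : ℝ) ^ 2) := by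
    refine mul_le_mul_of_nonneg_left ?_ hy0
    linarith
  have h4 : c * y * (μ : ℝ) ^ 2 ≤ μ * (μ : ℝ) ^ 2 := mul_le_mul_of_nonneg_right hyc (sq_nonneg _)
  have e1 : y * (16 * c * (μ : ℝ) ^ 2) = 16 * (c * y * (μ : ℝ) ^ 2) := by ring
  have e2 : 16 * (μ : ℝ) ^ 3 = 16 * (μ * (μ : ℝ) ^ 2) := by ring
  linarith

/-- The inequality for irreducible curves. -/
theorem nef_irr6 {r : ℕ} {P : Fin (r + 4) → Fin 2 → ℂ}
    (hP : AlgebraicIndependent ℚ (fun ij : Fin (r + 4) × Fin 2 => P ij.1 ij.2))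
    {x : Fin (r + 4) → ℝ} {c M : ℝ} (hM : 0 < M) (hx0 : ∀ i, 0 ≤ x i) (hxM : ∀ i, x i ≤ M)
    (hc : 24 * M ≤ c) (h : 700 * M ^ 6 ≤ c ^ 4 * (c ^ 2 - ∑ i, x i ^ 2))
    {G : MvPolynomial (Fin 3) ℂ} {e : ℕ} {u : Fin (r + 4) → ℕ} (hG : Irreducible G)
    (hGe : G.IsHomogeneous e) (hGo : ∀ j, Ord (aff (P j)) (u j) G)
    (hfew : ∀ W, (∀ i, u i ≤ W) → 144 * W ^ 2 ≤ max (∑ i, u i ^ 2) (e ^ 2) →
      (16 * ((Finset.univ.image u).erase 0).card + 8) * W ^ 2 ≤ max (∑ i, u i ^ 2) (e ^ 2) →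
      ∑ i, u i ^ 2 ≤ e ^ 2) :
    ∑ i, x i * (u i : ℝ) ≤ c * e := by
  classical
  have hue : ∀ i, u i ≤ e := fun i => van_le hG.ne_zero hGe (hGo i).1
  by_contra hcon
  push Not at hcon
  have hkn : 3 * e < ∑ i, u i := by
    by_contra h0
    push Not at h0
    refine absurd (std_nonneg hx0 (fun i j k _ _ _ => ?_) hue h0) (not_le.2 hcon)
    have h1 := hxM i
    have h2 := hxM j
    have h3 := hxM k
    linarith
  obtain ⟨p, hp⟩ : ∃ p, p = ∑ i, x i * (u i : ℝ) := ⟨_, rfl⟩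
  obtain ⟨X2, hX2⟩ : ∃ X2, X2 = ∑ i, x i ^ 2 := ⟨_, rfl⟩
  obtain ⟨U2, hU2⟩ : ∃ U2 : ℝ, U2 = ∑ i, (u i : ℝ) ^ 2 := ⟨_, rfl⟩
  rw [← hp] at hcon
  rw [← hX2] at h
  have he0 : (0 : ℝ) ≤ e := Nat.cast_nonneg e
  have hM6 : 0 < M ^ 6 := by positivity
  have hc0 : 0 < c := by linarith
  have hX : 0 < c ^ 2 - X2 := by
    by_contra h0
    push Not at h0
    have : c ^ 4 * (c ^ 2 - X2) ≤ 0 := mul_nonpos_of_nonneg_of_nonpos (by positivity) h0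
    linarith
  obtain ⟨X, hXd⟩ : ∃ X, X = c ^ 2 - X2 := ⟨_, rfl⟩
  rw [← hXd] at h hX
  -- `G ^ 2 < 0`
  have hcs : p ^ 2 ≤ X2 * U2 := by
    rw [hp, hX2, hU2]
    exact Finset.sum_mul_sq_le_sq_mul_sq _ _ _
  have hce0 : 0 ≤ c * e := mul_nonneg hc0.le he0
  have hp2 : (c * e) ^ 2 < p ^ 2 := pow_lt_pow_left₀ hcon hce0 two_ne_zero
  have hU20 : 0 ≤ U2 := by rw [hU2]; exact Finset.sum_nonneg fun i _ => sq_nonneg _
  have hneg : (e : ℝ) ^ 2 < U2 := by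
    have h1 : X2 * U2 ≤ c ^ 2 * U2 := mul_le_mul_of_nonneg_right (by linarith) hU20
    have h2 : c ^ 2 * (e : ℝ) ^ 2 < c ^ 2 * U2 := by
      have e1 : (c * e) ^ 2 = c ^ 2 * (e : ℝ) ^ 2 := by ring
      linarith
    exact lt_of_mul_lt_mul_left h2 (sq_nonneg c)
  have hU2n : U2 = ((∑ i, u i ^ 2 : ℕ) : ℝ) := by rw [hU2]; push_cast; rfl
  have hnegn : e ^ 2 < ∑ i, u i ^ 2 := by
    rw [hU2n] at hneg
    exact_mod_cast hneg
  have hip : ip e u e u < 0 := by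
    unfold ip
    have h1 : ((e ^ 2 : ℕ) : ℤ) < ((∑ i, u i ^ 2 : ℕ) : ℤ) := by exact_mod_cast hnegn
    push_cast at h1
    have h2 : ∑ j, (u j : ℤ) * u j = ∑ j, (u j : ℤ) ^ 2 :=
      Finset.sum_congr rfl fun j _ => by ring
    rw [h2]
    have h3 : (e : ℤ) * e = (e : ℤ) ^ 2 := by ring
    omega
  have hkk : kk e u < 0 := by
    unfold kk
    have h1 : ((3 * e : ℕ) : ℤ) < ((∑ i, u i : ℕ) : ℤ) := by exact_mod_cast hkn
    push_cast at h1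
    omega
  -- a multiplicity at least four
  have hfour : ∃ i, 4 ≤ u i := by
    by_contra h0
    push Not at h0
    have h1 := T3.neg9 (w := u) (by
      have : (Finset.univ.filter fun i => 3 < u i) = ∅ := by
        refine Finset.filter_false_of_mem fun i _ => ?_
        have := h0 i
        omega
      rw [this]
      simp) hP hG hGe hGo hip
    omega
  obtain ⟨i1, -, hi1⟩ := Finset.exists_max_image (Finset.univ : Finset (Fin (r + 4))) u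
    Finset.univ_nonempty
  obtain ⟨i4, hi4⟩ := hfour
  have hμ4 : 4 ≤ u i1 := hi4.trans (hi1 i4 (Finset.mem_univ _))
  have hxu := xu hP hG hGe hGo (k := i1) (by omega)
  obtain ⟨k, hk⟩ : ∃ k, ∑ i, u i ^ 2 = e ^ 2 + k := ⟨∑ i, u i ^ 2 - e ^ 2, by omega⟩
  have hk1 : 1 ≤ k := by omega
  obtain ⟨μ, hμd⟩ : ∃ μ : ℝ, μ = (u i1 : ℝ) := ⟨_, rfl⟩
  have hμ4r : 4 ≤ μ := by rw [hμd]; exact_mod_cast hμ4
  have hkμ : (k : ℝ) ≤ μ := by rw [hμd]; exact_mod_cast (by omega : k ≤ u i1)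
  have hkR : U2 = (e : ℝ) ^ 2 + k := by
    rw [hU2n, hk]
    push_cast
    ring
  -- the comparison with `t x`
  obtain ⟨t, ht⟩ : ∃ t : ℝ, t = e / c := ⟨_, rfl⟩
  have htc : t * c = e := by rw [ht]; field_simp
  have ht0 : 0 ≤ t := by rw [ht]; positivity
  have hsum : ∑ i, ((u i : ℝ) - t * x i) ^ 2 = U2 - 2 * t * p + t ^ 2 * X2 := by
    have e1 : ∀ i, ((u i : ℝ) - t * x i) ^ 2 =
        (u i : ℝ) ^ 2 - 2 * t * (x i * u i) + t ^ 2 * x i ^ 2 := fun i => by ring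
    simp only [e1]
    rw [Finset.sum_add_distrib, Finset.sum_sub_distrib, ← Finset.mul_sum, ← Finset.mul_sum, hU2,
      hp, hX2]
  have htp : (e : ℝ) ^ 2 ≤ t * p := by
    have h1 : t * (c * e) ≤ t * p := mul_le_mul_of_nonneg_left hcon.le ht0
    have e1 : t * (c * e) = (t * c) * e := by ring
    rw [e1, htc] at h1
    have e2 : (e : ℝ) ^ 2 = e * e := by ring
    linarith
  have hsum2 : ∑ i, ((u i : ℝ) - t * x i) ^ 2 ≤ k - t ^ 2 * X := by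
    rw [hsum]
    have e1 : t ^ 2 * X = (t * c) ^ 2 - t ^ 2 * X2 := by rw [hXd]; ring
    rw [e1, htc]
    linarith
  have hone : (μ - t * x i1) ^ 2 ≤ k - t ^ 2 * X := by
    refine le_trans ?_ hsum2
    rw [hμd]
    exact Finset.single_le_sum (f := fun i => ((u i : ℝ) - t * x i) ^ 2)
      (fun i _ => sq_nonneg _) (Finset.mem_univ i1)
  have htM : t * x i1 ≤ t * M := mul_le_mul_of_nonneg_left (hxM i1) ht0
  have htX0 : 0 ≤ t ^ 2 * X := by positivity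
  obtain ⟨T, hT⟩ : ∃ T, T = t * M := ⟨_, rfl⟩
  rw [← hT] at htM
  -- `μ ≤ 2 T`
  have hμT : μ ≤ 2 * T := by
    by_contra h2
    push Not at h2
    have h3 : μ / 2 < μ - t * x i1 := by linarith
    have h4 : (μ / 2) ^ 2 < (μ - t * x i1) ^ 2 := pow_lt_pow_left₀ h3 (by linarith) two_ne_zero
    have h5 : 0 ≤ μ * (μ - 4) := mul_nonneg (by linarith) (by linarith)
    have e1 : (μ / 2) ^ 2 = μ * (μ - 4) / 4 + μ := by ring
    linarith
  have hT0 : 0 < T := by linarith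
  obtain ⟨E, hE⟩ : ∃ E : ℝ, E = (e : ℝ) ^ 2 := ⟨_, rfl⟩
  have hET : 576 * T ^ 2 ≤ E := by
    have h1 : (24 * (t * M)) ^ 2 ≤ (t * c) ^ 2 := by
      refine pow_le_pow_left₀ (by positivity) ?_ 2
      have := mul_le_mul_of_nonneg_left hc ht0
      linarith
    rw [htc, ← hT, ← hE] at h1
    linarith
  have h144 : 144 * u i1 ^ 2 ≤ ∑ i, u i ^ 2 := by
    have h1 : μ ^ 2 ≤ (2 * T) ^ 2 := pow_le_pow_left₀ (by linarith) hμT 2
    have h2 : (144 : ℝ) * μ ^ 2 ≤ ((∑ i, u i ^ 2 : ℕ) : ℝ) := by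
      rw [← hU2n]
      have e1 : (2 * T) ^ 2 = 4 * T ^ 2 := by ring
      linarith
    rw [hμd] at h2
    exact_mod_cast h2
  have hnb := neg_bound hk1 hk (fun i => hi1 i (Finset.mem_univ _)) (i1 := i1) (by omega)
    (fun i j hij => by
      have h1 := spaced hP hG hGe hGo hij
      rw [hk] at h1
      push_cast at h1
      linarith) hfew h144
  rw [← hU2n, ← hμd] at hnb
  obtain ⟨y, hy⟩ : ∃ y : ℝ, y = √(k : ℝ) := ⟨_, rfl⟩
  have hy0 : 0 ≤ y := by rw [hy]; exact Real.sqrt_nonneg _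
  have hy2 : y ^ 2 = k := by rw [hy]; exact Real.sq_sqrt (Nat.cast_nonneg _)
  rw [← hy] at hnb
  have hEU : E ≤ U2 := by rw [hE]; exact hneg.le
  -- `15 y ≤ 2 μ`
  have hyμ : 15 * y ≤ 2 * μ := by
    have h1 : (144 : ℝ) * μ ^ 2 ≤ U2 := by
      rw [hU2n, hμd]
      exact_mod_cast h144
    have h2 : y * (120 * μ ^ 2) ≤ y * (U2 - 24 * μ ^ 2) :=
      mul_le_mul_of_nonneg_left (by linarith) hy0
    have h3 : μ ^ 2 * (15 * y) ≤ μ ^ 2 * (2 * μ) := by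
      have e1 : y * (120 * μ ^ 2) = 8 * (μ ^ 2 * (15 * y)) := by ring
      have e2 : 16 * μ ^ 3 = 8 * (μ ^ 2 * (2 * μ)) := by ring
      linarith
    exact le_of_mul_le_mul_left h3 (by positivity)
  have hμT2 : 13 * μ ≤ 15 * T := by
    have h1 : μ - t * x i1 ≤ y := by
      have h2 : (μ - t * x i1) ^ 2 ≤ y ^ 2 := by rw [hy2]; linarith
      exact le_trans (le_abs_self _) (abs_le_of_sq_le_sq h2 hy0)
    linarith
  have hE0 : 0 ≤ E := by rw [hE]; exact sq_nonneg _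
  have hyE : y * E ≤ 26.03 * T ^ 3 := by
    have h1 : y * (E - 24 * μ ^ 2) ≤ y * (U2 - 24 * μ ^ 2) :=
      mul_le_mul_of_nonneg_left (by linarith) hy0
    have h2 : μ ≤ 15 / 13 * T := by linarith
    have h3 : μ ^ 2 ≤ (15 / 13 * T) ^ 2 := pow_le_pow_left₀ (by linarith) h2 2
    have h4 : μ ^ 3 ≤ (15 / 13 * T) ^ 3 := pow_le_pow_left₀ (by linarith) h2 3
    have h5 : y * μ ^ 2 ≤ y * (15 / 13 * T) ^ 2 := mul_le_mul_of_nonneg_left h3 hy0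
    have h6 : y * (576 * T ^ 2) ≤ y * E := mul_le_mul_of_nonneg_left hET hy0
    have e1 : (15 / 13 * T) ^ 3 = 3375 / 2197 * T ^ 3 := by ring
    have e2 : y * (15 / 13 * T) ^ 2 = 225 / 169 / 576 * (y * (576 * T ^ 2)) := by ring
    have e3 : y * (E - 24 * μ ^ 2) = y * E - 24 * (y * μ ^ 2) := by ring
    have hT3 : 0 ≤ T ^ 3 := by positivity
    rw [e1] at h4
    rw [e2] at h5
    rw [e3] at h1
    linarith
  have hfin1 : (y * E) ^ 2 ≤ (26.03 * T ^ 3) ^ 2 :=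
    pow_le_pow_left₀ (mul_nonneg hy0 hE0) hyE 2
  have hfin2 : 700 * T ^ 6 ≤ (y * E) ^ 2 := by
    have h1 : t ^ 6 * (700 * M ^ 6) ≤ t ^ 6 * (c ^ 4 * X) :=
      mul_le_mul_of_nonneg_left h (by positivity)
    have e1 : t ^ 6 * (c ^ 4 * X) = (t ^ 2 * X) * E ^ 2 := by rw [hE, ← htc]; ring
    have e2 : t ^ 6 * (700 * M ^ 6) = 700 * T ^ 6 := by rw [hT]; ring
    have h2 : t ^ 2 * X ≤ y ^ 2 := by
      rw [hy2]
      have := sq_nonneg (μ - t * x i1)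
      linarith
    have h3 : (t ^ 2 * X) * E ^ 2 ≤ y ^ 2 * E ^ 2 :=
      mul_le_mul_of_nonneg_right h2 (sq_nonneg _)
    have e3 : (y * E) ^ 2 = y ^ 2 * E ^ 2 := by ring
    rw [e3]
    linarith
  have hT6 : 0 < T ^ 6 := by positivity
  have e4 : (26.03 * T ^ 3) ^ 2 = 677.5609 * T ^ 6 := by ring
  linarith

end Pool.Agent.Y939.XN
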