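import Pool.Agent.Y939.XN.Few
import Pool.Agent.Y939.WN.Large

set_option autoImplicit false

/-!
# Plane curves with a large sum of multiplicities
-/

namespace Pool.Agent.Y939.XN

open MvPolynomial Pool.Agent.W609 Pool.Agent.W609.CR Pool.Agent.TH167 Pool.Agent.TH167.SH
  Pool.Agent.H932R3 Pool.Agent.TH442.NF Pool.Agent.Y939.WN

/-- Every plane curve with a large sum of multiplicities. -/
theorem many {n : ℕ} {P : Fin n → Fin 2 → ℂ}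
    (hP : AlgebraicIndependent ℚ (fun ij : Fin n × Fin 2 => P ij.1 ij.2))
    {F : MvPolynomial (Fin 3) ℂ} {e : ℕ} {m : Fin n → ℕ} (hF0 : F ≠ 0) (hF : F.IsHomogeneous e)
    (hm : ∀ j, Van (aff (P j)) (m j) F) {μ : ℕ} (hμ : ∀ i, m i ≤ μ)
    (hl : 25000 * (μ + 1) ^ 2 ≤ ∑ i, m i) :
    ∑ i, m i ^ 2 + ∑ i, m i ≤ e ^ 2 + 3 * e ∧ 2 * ∑ i, m i ^ 2 + ∑ i, m i ≤ 2 * e ^ 2 := by
  have hL : Large e m := by
    refine ⟨Finset.univ, μ, fun i _ => hμ i, fun i hi => absurd (Finset.mem_univ i) hi, ?_⟩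
    have h4 : ((25000 * (μ + 1) ^ 2 : ℕ) : ℤ) ≤ ((∑ i, m i : ℕ) : ℤ) := by exact_mod_cast hl
    push_cast at h4
    have h5 := abs_nonneg (((e + 2).choose 2 : ℤ) - ∑ i, ((m i + 1).choose 2 : ℤ))
    linarith
  have hE := large_exp hL hP
  rw [expDim_iff] at hE
  have hmem : F ∈ VS (fun j => aff (P j)) m e := (mem_VS _ _ _ _).2 ⟨hF, hm⟩
  have hfin := vs_fin (fun j => aff (P j)) m e
  have hpos : 0 < Module.finrank ℂ ↥(VS (fun j => aff (P j)) m e) :=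
    Module.finrank_pos_iff.2 ⟨⟨F, hmem⟩, 0, fun h7 => hF0 (congrArg Subtype.val h7)⟩
  have hchi : 1 ≤ chi e m := by omega
  have htwo := two_chi e m
  obtain ⟨A, hA⟩ : ∃ A : ℤ, A = ∑ i, (m i : ℤ) := ⟨_, rfl⟩
  obtain ⟨Q, hQ⟩ : ∃ Q : ℤ, Q = ∑ i, (m i : ℤ) ^ 2 := ⟨_, rfl⟩
  have h2 : ∑ j, (m j : ℤ) * m j = Q := by
    rw [hQ]
    exact Finset.sum_congr rfl fun j _ => by ring
  have hip : ip e m e m = (e : ℤ) ^ 2 - Q := by
    unfold ip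
    rw [h2]
    ring
  have hkk : kk e m = 3 * e - A := by
    unfold kk
    rw [hA]
  rw [hip, hkk] at htwo
  have h1 : Q + A ≤ (e : ℤ) ^ 2 + 3 * e := by omega
  have h3 : (25000 : ℤ) * (μ + 1) ^ 2 ≤ A := by rw [hA]; exact_mod_cast hl
  have h4 : Q ≤ μ * A := by
    rw [← h2, hA, Finset.mul_sum]
    refine Finset.sum_le_sum fun j _ => mul_le_mul_of_nonneg_right ?_ (Int.natCast_nonneg _)
    exact_mod_cast hμ j
  have he0 : (0 : ℤ) ≤ e := Int.natCast_nonneg e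
  have hμ0 : (0 : ℤ) ≤ μ := Int.natCast_nonneg μ
  have hA0 : 0 ≤ A := by
    have : (0 : ℤ) ≤ 25000 * (μ + 1) ^ 2 := by positivity
    linarith
  have h5 : 2 * Q + A ≤ 2 * (e : ℤ) ^ 2 := by
    rcases le_or_gt (6 * (e : ℤ)) A with h6 | h6
    · linarith
    · have h7 : A * A ≤ (6 * (e : ℤ)) * (6 * e) :=
        mul_le_mul h6.le h6.le hA0 (by linarith)
      have h8 : (25000 * ((μ : ℤ) + 1) ^ 2) * A ≤ A * A := mul_le_mul_of_nonneg_right h3 hA0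
      have h9 : (36 * ((μ : ℤ) + 1)) * A ≤ (25000 * ((μ : ℤ) + 1) ^ 2) * A := by
        refine mul_le_mul_of_nonneg_right ?_ hA0
        nlinarith
      have e1 : (6 * (e : ℤ)) * (6 * e) = 36 * (e : ℤ) ^ 2 := by ring
      have e2 : (36 * ((μ : ℤ) + 1)) * A = 36 * (μ * A) + 36 * A := by ring
      linarith
  have eQ : ((∑ i, m i ^ 2 : ℕ) : ℤ) = Q := by rw [hQ]; push_cast; rfl
  have eA : ((∑ i, m i : ℕ) : ℤ) = A := by rw [hA]; push_cast; rfl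
  constructor
  · have h6 : ((∑ i, m i ^ 2 + ∑ i, m i : ℕ) : ℤ) ≤ ((e ^ 2 + 3 * e : ℕ) : ℤ) := by
      push_cast [← eQ, ← eA] at h1 ⊢
      linarith
    exact_mod_cast h6
  · have h6 : ((2 * ∑ i, m i ^ 2 + ∑ i, m i : ℕ) : ℤ) ≤ ((2 * e ^ 2 : ℕ) : ℤ) := by
      push_cast [← eQ, ← eA] at h5 ⊢
      linarith
    exact_mod_cast h6

end Pool.Agent.Y939.XN
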