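import Pool.Agent.Results.MP_309968_ag.FewCoefficients
import Pool.Agent.Y939.XN.Sext

set_option autoImplicit false

/-!
# Negative curves at very general points: separated multiplicities
-/

namespace Pool.Agent.Y939.XN

open Pool.Agent.W609.CR (Van Ord aff)
open Pool.Agent.TH167.SH (exists_fam)
open Pool.Agent.Results.MP_309968_ag.BoundaryRays (MultGE)

/-- the two descriptions of multiplicities -/
theorem mult_iff {n : ℕ} {p : Fin n → Fin 2 → ℂ} {F : MvPolynomial (Fin 3) ℂ} {e : ℕ}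
    (hF : F.IsHomogeneous e) (m : Fin n → ℕ) :
    (∀ i, MultGE (p i) F (m i)) ↔ ∀ i, Van (aff (p i)) (m i) F := by
  have h1 : (∀ i, Van (aff (p i)) (m i) F) ↔
      F ∈ Pool.Agent.W609.CR.VS (fun j => aff (p j)) m e := by
    rw [Pool.Agent.TH167.SH.mem_VS]
    exact ⟨fun h => ⟨hF, h⟩, fun h => h.2⟩
  rw [h1, Pool.Agent.W609.CR.vs_eq_forms, Pool.Agent.H248R5.mem_forms]
  have h2 : ∀ i, Pool.Agent.H248R5.tau (p i) F ∈ (MvPolynomial.idealOfVars (Fin 2) ℂ) ^ (m i) ↔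
      MultGE (p i) F (m i) := by
    intro i
    rw [MvPolynomial.mem_pow_idealOfVars_iff']
    constructor
    · intro h s hs
      by_contra hne
      refine (MvPolynomial.mem_support_iff.1 hs) (h s ?_)
      rw [Finsupp.degree_eq_sum, Fin.sum_univ_two]
      omega
    · intro h s hs
      by_contra hne
      have h3 := h s (MvPolynomial.mem_support_iff.2 hne)
      rw [Finsupp.degree_eq_sum, Fin.sum_univ_two] at hs
      omega
  constructor
  · exact fun h => ⟨hF, fun i => (h2 i).2 (h i)⟩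
  · exact fun h i => (h2 i).1 (h.2 i)

/-- Negative curves at very general points. -/
theorem neg_sep (n : ℕ) : ∃ f : ℕ → MvPolynomial (Fin n × Fin 2) ℂ, (∀ k, f k ≠ 0) ∧
    ∀ p : Fin n → Fin 2 → ℂ,
      (∀ k, MvPolynomial.eval (fun q : Fin n × Fin 2 => p q.1 q.2) (f k) ≠ 0) →
      AlgebraicIndependent ℚ (fun q : Fin n × Fin 2 => p q.1 q.2) ∧
      ∀ (G : MvPolynomial (Fin 3) ℂ) (e k : ℕ) (u : Fin n → ℕ), Irreducible G →
        G.IsHomogeneous e → (∀ j, Ord (aff (p j)) (u j) G) → 1 ≤ k →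
        ∑ i, u i ^ 2 = e ^ 2 + k →
        (∀ i j, u i ≠ u j → (k : ℤ) ≤ ((u i : ℤ) - u j) ^ 2) ∧
        ∀ μ : ℕ, (∀ i, u i ≤ μ) → 144 * μ ^ 2 ≤ ∑ i, u i ^ 2 →
          (k : ℤ) * (((∑ i, u i ^ 2 : ℕ) : ℤ) - 24 * (μ : ℤ) ^ 2) ^ 2 ≤ 256 * (μ : ℤ) ^ 6 := by
  classical
  obtain ⟨f1, hf1, h1⟩ := exists_fam (Fin n × Fin 2)
  obtain ⟨f2, hf2, h2⟩ := Pool.Agent.Results.MP_309968_ag.FewCoefficients.result n
  refine ⟨fun k => f1 k * f2 k, fun k => mul_ne_zero (hf1 k) (hf2 k), fun p hp => ?_⟩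
  have hP := (h1 fun q => p q.1 q.2).1 fun k => by
    have := hp k
    rw [map_mul] at this
    exact left_ne_zero_of_mul this
  have hfew := (h2 p fun k => by
    have := hp k
    rw [map_mul] at this
    exact right_ne_zero_of_mul this).2
  refine ⟨hP, fun G e k u hG hGe hGo hk hkS => ?_⟩
  have hsp : ∀ i j, u i ≠ u j → (k : ℤ) ≤ ((u i : ℤ) - u j) ^ 2 := fun i j hij => by
    have h3 := spaced hP hG hGe hGo hij
    rw [hkS] at h3
    push_cast at h3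
    linarith
  refine ⟨hsp, fun μ hμ h144 => ?_⟩
  have hfewG := fun W hW =>
    hfew G e W u hGe hG.ne_zero ((mult_iff hGe u).2 fun i => (hGo i).1) hW
  have hi1 : ∃ i1, 1 ≤ u i1 := by
    by_contra hcon
    push Not at hcon
    have : ∑ i, u i ^ 2 = 0 := Finset.sum_eq_zero fun i _ => by
      have h3 : u i = 0 := by
        have := hcon i
        omega
      rw [h3]
      norm_num
    omega
  obtain ⟨i1, hi1⟩ := hi1
  have hnb := neg_bound hk hkS hμ hi1 hsp (fun W hW => (hfewG W hW).1) h144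
  obtain ⟨S, hS⟩ : ∃ S : ℕ, S = ∑ i, u i ^ 2 := ⟨_, rfl⟩
  rw [← hS] at hnb h144 ⊢
  have hy0 := Real.sqrt_nonneg (k : ℝ)
  have hy2 := Real.sq_sqrt (Nat.cast_nonneg (α := ℝ) k)
  have h3 : 0 ≤ (S : ℝ) - 24 * (μ : ℝ) ^ 2 := by
    have h4 : (144 : ℝ) * (μ : ℝ) ^ 2 ≤ S := by exact_mod_cast h144
    have := sq_nonneg (μ : ℝ)
    linarith
  have h4 := pow_le_pow_left₀ (mul_nonneg hy0 h3) hnb 2
  rw [mul_pow, hy2] at h4
  have h5 : (k : ℝ) * ((S : ℝ) - 24 * (μ : ℝ) ^ 2) ^ 2 ≤ 256 * (μ : ℝ) ^ 6 := by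
    have e1 : (16 * (μ : ℝ) ^ 3) ^ 2 = 256 * (μ : ℝ) ^ 6 := by ring
    linarith
  exact_mod_cast h5

end Pool.Agent.Y939.XN
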