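import Pool.Agent.Y939.XN.Quart
import Pool.Agent.H977R3.CM.Aut

set_option autoImplicit false

/-!
# Permutations of the points

An irreducible curve of degree `e` with multiplicities exactly `u j` at generic points `P j` has
conjugates with the multiplicities `u (σ j)`. So two different multiplicities of an irreducible
curve of negative self-intersection `- k` differ by at least `√k`.
-/

namespace Pool.Agent.Y939.XN

open MvPolynomial Pool.Agent.W609 Pool.Agent.W609.CR Pool.Agent.TH167 Pool.Agent.TH167.SH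

/-- A permutation of algebraically independent numbers is induced by an automorphism. -/
theorem exists_aut_perm {ι : Type} {x : ι → ℂ} (hx : AlgebraicIndependent ℚ x)
    (σ : Equiv.Perm ι) : ∃ τ : ℂ ≃+* ℂ, ∀ i, τ (x i) = x (σ i) := by
  have hinj : Function.Injective (aeval x : MvPolynomial ι ℚ →ₐ[ℚ] ℂ) := hx
  obtain ⟨j, hj⟩ : ∃ j : FractionRing (MvPolynomial ι ℚ) →+* ℂ,
      j = IsFractionRing.lift (A := MvPolynomial ι ℚ) (g := (aeval x : MvPolynomial ι ℚ →ₐ[ℚ] ℂ).toRingHom)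
        hinj := ⟨_, rfl⟩
  obtain ⟨g, hg⟩ : ∃ g : FractionRing (MvPolynomial ι ℚ) ≃+* FractionRing (MvPolynomial ι ℚ),
      g = IsFractionRing.ringEquivOfRingEquiv (renameEquiv ℚ σ).toRingEquiv := ⟨_, rfl⟩
  obtain ⟨τ, hτ⟩ := Pool.Agent.H977R3.CM.exists_aut j g
  refine ⟨τ, fun i => ?_⟩
  have h1 : ∀ f : MvPolynomial ι ℚ, j (algebraMap _ _ f) = aeval x f := fun f => by
    rw [hj, IsFractionRing.lift_algebraMap]
    rfl
  have h2 := hτ (algebraMap (MvPolynomial ι ℚ) _ (X i))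
  rw [h1, aeval_X, hg, IsFractionRing.ringEquivOfRingEquiv_algebraMap] at h2
  rw [h2]
  have h3 : (renameEquiv ℚ σ).toRingEquiv (X i) = (X (σ i) : MvPolynomial ι ℚ) := by
    simp
  rw [h3, h1, aeval_X]

/-- Orders of vanishing and automorphisms of the field. -/
theorem van_map (τ : ℂ ≃+* ℂ) (v : Fin 3 → ℂ) (m : ℕ) (f : MvPolynomial (Fin 3) ℂ) :
    Van (fun i => τ (v i)) m (mapEquiv (Fin 3) τ f) ↔ Van v m f := by
  unfold Van
  obtain ⟨φ, hφ⟩ : ∃ φ, φ = mapEquiv (Fin 3) τ := ⟨_, rfl⟩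
  rw [← hφ]
  have h1 : RingHom.ker (eval fun i => τ (v i)) =
      Ideal.map (φ : MvPolynomial (Fin 3) ℂ →+* MvPolynomial (Fin 3) ℂ)
        (RingHom.ker (eval v)) := by
    rw [Ideal.map_comap_of_equiv]
    ext g
    rw [Ideal.mem_comap, RingHom.mem_ker, RingHom.mem_ker]
    obtain ⟨h, rfl⟩ := φ.surjective g
    have h2 : eval (fun i => τ (v i)) (φ h) = τ (eval v h) := by
      rw [hφ]
      have e1 : (mapEquiv (Fin 3) τ) h = map (τ : ℂ →+* ℂ) h := rfl
      have e3 := eval₂_comp_left (τ : ℂ →+* ℂ) (RingHom.id ℂ) v h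
      rw [eval₂_id, RingHom.comp_id] at e3
      rw [e1, eval_map]
      exact e3.symm
    rw [h2]
    simp
  rw [h1, ← Ideal.map_pow]
  constructor
  · intro h
    obtain ⟨g, hg, hgf⟩ := (Ideal.mem_map_of_equiv φ _).1 h
    rwa [← φ.injective hgf]
  · exact fun h => Ideal.mem_map_of_mem _ h

/-- The conjugate of an irreducible curve. -/
theorem exists_conj {s : ℕ} {P : Fin s → Fin 2 → ℂ}
    (hP : AlgebraicIndependent ℚ (fun ij : Fin s × Fin 2 => P ij.1 ij.2))
    {G : MvPolynomial (Fin 3) ℂ} {e : ℕ} {u : Fin s → ℕ} (hG : Irreducible G)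
    (hGe : G.IsHomogeneous e) (hGo : ∀ j, Ord (aff (P j)) (u j) G) (σ : Equiv.Perm (Fin s)) :
    ∃ G' : MvPolynomial (Fin 3) ℂ, Irreducible G' ∧ G'.IsHomogeneous e ∧
      ∀ j, Ord (aff (P j)) (u (σ j)) G' := by
  obtain ⟨τ, hτ⟩ := exists_aut_perm hP (Equiv.prodCongr σ.symm (Equiv.refl (Fin 2)))
  refine ⟨mapEquiv (Fin 3) τ G, (MulEquiv.irreducible_iff (mapEquiv (Fin 3) τ)).2 hG, ?_,
    fun j => ?_⟩
  · have e1 : (mapEquiv (Fin 3) τ) G = map (τ : ℂ →+* ℂ) G := rfl
    rw [e1]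
    exact hGe.map _
  · have h1 : (fun i => τ (aff (P (σ j)) i)) = aff (P j) := by
      have h2 : ∀ b, τ (P (σ j) b) = P j b := fun b => by
        have h3 := hτ (σ j, b)
        simp only [Equiv.prodCongr_apply, Prod.map_apply, Equiv.symm_apply_apply,
          Equiv.refl_apply] at h3
        exact h3
      funext i
      fin_cases i
      · exact h2 0
      · exact h2 1
      · exact map_one τ
    unfold CR.Ord
    rw [← h1, van_map, van_map]
    exact hGo (σ j)

/-- Different multiplicities of a negative curve are far from each other. -/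
theorem spaced {s : ℕ} {P : Fin s → Fin 2 → ℂ}
    (hP : AlgebraicIndependent ℚ (fun ij : Fin s × Fin 2 => P ij.1 ij.2))
    {G : MvPolynomial (Fin 3) ℂ} {e : ℕ} {u : Fin s → ℕ} (hG : Irreducible G)
    (hGe : G.IsHomogeneous e) (hGo : ∀ j, Ord (aff (P j)) (u j) G) {i j : Fin s}
    (hij : u i ≠ u j) : ((∑ l, u l ^ 2 : ℕ) : ℤ) - (e : ℤ) ^ 2 ≤ ((u i : ℤ) - u j) ^ 2 := by
  classical
  obtain ⟨G', hG', hGe', hGo'⟩ := exists_conj hP hG hGe hGo (Equiv.swap i j)
  have hne : i ≠ j := fun h => hij (by rw [h])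
  have hnd : ¬ G ∣ G' := by
    rintro ⟨Q, rfl⟩
    rcases lt_or_gt_of_ne hij with h | h
    · refine (hGo' j).2 (van_mono (b := u j) ?_ ?_)
      · rw [Equiv.swap_apply_right]
        omega
      · exact Ideal.mul_mem_right _ _ (hGo j).1
    · refine (hGo' i).2 (van_mono (b := u i) ?_ ?_)
      · rw [Equiv.swap_apply_left]
        omega
      · exact Ideal.mul_mem_right _ _ (hGo i).1
  have hb := bez (inj_of_alg hP) hG hGe (fun j => (hGo j).1) hG'.ne_zero hGe'
    (fun j => (hGo' j).1) hnd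
  have hb' : ∑ l, (u l : ℤ) * u (Equiv.swap i j l) ≤ (e : ℤ) * e := by exact_mod_cast hb
  have h1 : ∑ l, ((u l : ℤ) - u (Equiv.swap i j l)) ^ 2 = 2 * ((u i : ℤ) - u j) ^ 2 := by
    rw [Fintype.sum_eq_add i j hne]
    · rw [Equiv.swap_apply_left, Equiv.swap_apply_right]
      ring
    · rintro l ⟨h2, h3⟩
      rw [Equiv.swap_apply_of_ne_of_ne h2 h3]
      ring
  have h2 : ∑ l, ((u l : ℤ) - u (Equiv.swap i j l)) ^ 2 =
      ∑ l, (u l : ℤ) ^ 2 + ∑ l, (u (Equiv.swap i j l) : ℤ) ^ 2 -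
        2 * ∑ l, (u l : ℤ) * u (Equiv.swap i j l) := by
    rw [Finset.mul_sum, ← Finset.sum_add_distrib, ← Finset.sum_sub_distrib]
    exact Finset.sum_congr rfl fun l _ => by ring
  have h3 : ∑ l, (u (Equiv.swap i j l) : ℤ) ^ 2 = ∑ l, (u l : ℤ) ^ 2 :=
    Equiv.sum_comp (Equiv.swap i j) fun l => (u l : ℤ) ^ 2
  rw [h3, h1] at h2
  push_cast
  have e1 : (e : ℤ) ^ 2 = e * e := sq _
  linarith

/-- Numbers with large differences. -/
theorem card_spaced {A : Finset ℕ} {q μ : ℕ} (hq : 0 < q) (hA : ∀ a ∈ A, 1 ≤ a ∧ a ≤ μ)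
    (hAq : ∀ a ∈ A, ∀ b ∈ A, a < b → q ≤ b - a) : A.card ≤ (μ - 1) / q + 1 := by
  have h1 : Set.InjOn (fun a => (a - 1) / q) (A : Set ℕ) := by
    have key : ∀ a ∈ A, ∀ b ∈ A, a < b → (a - 1) / q < (b - 1) / q := by
      intro a ha b hb hab
      have h2 := hAq a ha b hb hab
      have h3 := hA a ha
      have h4 : (a - 1) + q ≤ b - 1 := by omega
      have h5 := Nat.div_le_div_right (c := q) h4
      rw [Nat.add_div_right _ hq] at h5
      omega
    intro a ha b hb hab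
    rcases lt_trichotomy a b with h | h | h
    · exact absurd hab (key a ha b hb h).ne
    · exact h
    · exact absurd hab.symm (key b hb a ha h).ne
  rw [← Finset.card_image_of_injOn h1]
  refine le_trans (Finset.card_le_card (t := Finset.range ((μ - 1) / q + 1)) ?_) (by simp)
  intro b hb
  obtain ⟨a, ha, rfl⟩ := Finset.mem_image.1 hb
  rw [Finset.mem_range]
  have h2 := hA a ha
  have h3 : (a - 1) / q ≤ (μ - 1) / q := Nat.div_le_div_right (by omega)
  omega

end Pool.Agent.Y939.XN
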