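import Pool.Agent.Y939.XN.Xu
import Pool.Agent.TH167.T3.Zar

set_option autoImplicit false

/-!
# Nef classes at a relative distance of the fourth power
-/

namespace Pool.Agent.Y939.XN

open MvPolynomial Pool.Agent.W609 Pool.Agent.W609.CR Pool.Agent.TH167 Pool.Agent.TH167.SH
  Pool.Agent.H932R3 Pool.Agent.TH442.NF

/-- The polynomial inequality of the last step. -/
theorem poly_ineq {μ s : ℝ} (hμ : 4 ≤ μ) (hs0 : 0 ≤ s) (hs2 : s ^ 2 ≤ μ) :
    (16 * μ + 144) * μ ^ 2 * (μ - s ^ 2) ≤ 160 * (μ - s) ^ 4 := by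
  have h1 : (16 * μ + 144) * μ ^ 2 * (μ - s ^ 2) ≤ 52 * μ * μ ^ 2 * (μ - s ^ 2) := by
    refine mul_le_mul_of_nonneg_right (mul_le_mul_of_nonneg_right ?_ (sq_nonneg _)) (by linarith)
    linarith
  have h2 : 52 * μ * μ ^ 2 * (μ - s ^ 2) ≤ 52 * μ ^ 4 - 208 * μ ^ 2 * s ^ 2 := by
    have h3 : 0 ≤ μ ^ 2 * s ^ 2 * (μ - 4) :=
      mul_nonneg (mul_nonneg (sq_nonneg _) (sq_nonneg _)) (by linarith)
    have e1 : 52 * μ * μ ^ 2 * (μ - s ^ 2) =
        52 * μ ^ 4 - 208 * μ ^ 2 * s ^ 2 - 52 * (μ ^ 2 * s ^ 2 * (μ - 4)) := by ring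
    linarith
  have hμ0 : 0 ≤ μ := by linarith
  have k1 := sq_nonneg (4 * μ ^ 2 - 12.7 * (μ * s) + 6.3 * s ^ 2)
  have k2 := sq_nonneg (μ * s - 0.3636 * μ ^ 2)
  have k3 : 0 ≤ μ ^ 3 * s := by positivity
  have k4 : 0 ≤ μ * s ^ 3 := by positivity
  have k5 : 0 ≤ s ^ 4 := by positivity
  have k6 : 0 ≤ μ ^ 4 := by positivity
  have e2 : 160 * (μ - s) ^ 4 - (52 * μ ^ 4 - 208 * μ ^ 2 * s ^ 2) =
      4 * ((4 * μ ^ 2 - 12.7 * (μ * s) + 6.3 * s ^ 2) ^ 2 +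
        80.31 * (μ * s - 0.3636 * μ ^ 2) ^ 2 + 0.001432 * (μ ^ 3 * s) + 0.02 * (μ * s ^ 3) +
        0.31 * s ^ 4 + (11 - 80.31 * 0.3636 ^ 2) * μ ^ 4) := by ring
  have k7 : 0 ≤ (11 - 80.31 * 0.3636 ^ 2) * μ ^ 4 := mul_nonneg (by norm_num) k6
  linarith

/-- Three largest coefficients. -/
theorem exists_three {r : ℕ} (x : Fin (r + 4) → ℝ) : ∃ a b d : Fin (r + 4), a ≠ b ∧ a ≠ d ∧ b ≠ d ∧
    x d ≤ x b ∧ x d ≤ x a ∧ ∀ j, j ≠ a → j ≠ b → x j ≤ x d := by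
  classical
  obtain ⟨a, -, ha⟩ := Finset.exists_max_image (Finset.univ : Finset (Fin (r + 4))) x
    Finset.univ_nonempty
  have h1 : (Finset.univ.erase a : Finset (Fin (r + 4))).Nonempty := by
    rw [← Finset.card_pos, Finset.card_erase_of_mem (Finset.mem_univ _), Finset.card_univ,
      Fintype.card_fin]
    omega
  obtain ⟨b, hb, hb'⟩ := Finset.exists_max_image (Finset.univ.erase a) x h1
  have h2 : ((Finset.univ.erase a).erase b : Finset (Fin (r + 4))).Nonempty := by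
    rw [← Finset.card_pos, Finset.card_erase_of_mem hb,
      Finset.card_erase_of_mem (Finset.mem_univ _), Finset.card_univ, Fintype.card_fin]
    omega
  obtain ⟨d, hd, hd'⟩ := Finset.exists_max_image ((Finset.univ.erase a).erase b) x h2
  have hba : b ≠ a := (Finset.mem_erase.1 hb).1
  have hdb : d ≠ b := (Finset.mem_erase.1 hd).1
  have hda : d ≠ a := (Finset.mem_erase.1 (Finset.mem_erase.1 hd).2).1
  refine ⟨a, b, d, hba.symm, hda.symm, hdb.symm, hb' d (Finset.mem_erase.1 hd).2,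
    ha d (Finset.mem_univ _), fun j hja hjb => hd' j ?_⟩
  exact Finset.mem_erase.2 ⟨hjb, Finset.mem_erase.2 ⟨hja, Finset.mem_univ _⟩⟩

/-- A standard class is nonnegative on the curves with `K C ≤ 0`. -/
theorem std_nonneg {r : ℕ} {x : Fin (r + 4) → ℝ} {c : ℝ} (hx0 : ∀ i, 0 ≤ x i)
    (hstd : ∀ i j k, i ≠ j → i ≠ k → j ≠ k → x i + x j + x k ≤ c) {e : ℕ} {u : Fin (r + 4) → ℕ}
    (hue : ∀ i, u i ≤ e) (hk : ∑ i, u i ≤ 3 * e) : ∑ i, x i * (u i : ℝ) ≤ c * e := by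
  classical
  obtain ⟨a, b, d, hab, had, hbd, h1, h2, h3⟩ := exists_three x
  have h4 : ∀ i, x i * (u i : ℝ) ≤ x d * u i + (if i = a then (x a - x d) * e else 0) +
      (if i = b then (x b - x d) * e else 0) := by
    intro i
    have hui : (u i : ℝ) ≤ e := by exact_mod_cast hue i
    by_cases hia : i = a
    · subst hia
      rw [if_pos rfl, if_neg hab]
      have := mul_le_mul_of_nonneg_left hui (sub_nonneg.2 h2)
      linarith
    · rw [if_neg hia]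
      by_cases hib : i = b
      · subst hib
        rw [if_pos rfl]
        have := mul_le_mul_of_nonneg_left hui (sub_nonneg.2 h1)
        linarith
      · rw [if_neg hib]
        have := mul_le_mul_of_nonneg_right (h3 i hia hib) (Nat.cast_nonneg (α := ℝ) (u i))
        linarith
  have h5 := Finset.sum_le_sum fun i (_ : i ∈ (Finset.univ : Finset (Fin (r + 4)))) => h4 i
  rw [Finset.sum_add_distrib, Finset.sum_add_distrib, Finset.sum_ite_eq' Finset.univ a,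
    Finset.sum_ite_eq' Finset.univ b, if_pos (Finset.mem_univ _), if_pos (Finset.mem_univ _),
    ← Finset.mul_sum] at h5
  have h6 : ∑ i, (u i : ℝ) ≤ 3 * e := by exact_mod_cast hk
  have h7 : x d * ∑ i, (u i : ℝ) ≤ x d * (3 * e) := mul_le_mul_of_nonneg_left h6 (hx0 d)
  have h8 : (x a + x b + x d) * e ≤ c * e :=
    mul_le_mul_of_nonneg_right (hstd a b d hab had hbd) (Nat.cast_nonneg _)
  linarith

/-- The inequality for irreducible curves. -/
theorem nef_irr {r : ℕ} {P : Fin (r + 4) → Fin 2 → ℂ}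
    (hP : AlgebraicIndependent ℚ (fun ij : Fin (r + 4) × Fin 2 => P ij.1 ij.2))
    {x : Fin (r + 4) → ℝ} {c M : ℝ} (hM : 0 < M) (hx0 : ∀ i, 0 ≤ x i) (hxM : ∀ i, x i ≤ M)
    (hstd : ∀ i j k, i ≠ j → i ≠ k → j ≠ k → x i + x j + x k ≤ c)
    (h : 160 * M ^ 4 ≤ c ^ 2 * (c ^ 2 - ∑ i, x i ^ 2))
    {G : MvPolynomial (Fin 3) ℂ} {e : ℕ} {u : Fin (r + 4) → ℕ} (hG : Irreducible G)
    (hGe : G.IsHomogeneous e) (hGo : ∀ j, Ord (aff (P j)) (u j) G)
    (hfew : ∀ W, (∀ i, u i ≤ W) → (16 * W + 144) * W ^ 2 ≤ e ^ 2 → ∑ i, u i ^ 2 ≤ e ^ 2) :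
    ∑ i, x i * (u i : ℝ) ≤ c * e := by
  classical
  have hue : ∀ i, u i ≤ e := fun i => van_le hG.ne_zero hGe (hGo i).1
  by_contra hcon
  push Not at hcon
  have hkn : 3 * e < ∑ i, u i := by
    by_contra h0
    push Not at h0
    exact absurd (std_nonneg hx0 hstd hue h0) (not_le.2 hcon)
  obtain ⟨p, hp⟩ : ∃ p, p = ∑ i, x i * (u i : ℝ) := ⟨_, rfl⟩
  obtain ⟨X2, hX2⟩ : ∃ X2, X2 = ∑ i, x i ^ 2 := ⟨_, rfl⟩
  obtain ⟨U2, hU2⟩ : ∃ U2 : ℝ, U2 = ∑ i, (u i : ℝ) ^ 2 := ⟨_, rfl⟩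
  rw [← hp] at hcon
  rw [← hX2] at h
  have he0 : (0 : ℝ) ≤ e := Nat.cast_nonneg e
  have hM4 : 0 < M ^ 4 := by positivity
  have hc0 : 0 < c := by
    have h1 : 0 ≤ c := by
      obtain ⟨a, b, d, hab, had, hbd, -⟩ := exists_three x
      have := hstd a b d hab had hbd
      have h2 := hx0 a
      have h3 := hx0 b
      have h4 := hx0 d
      linarith
    rcases h1.eq_or_lt with h2 | h2
    · rw [← h2] at h
      norm_num at h
      linarith
    · exact h2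
  have hX : 0 < c ^ 2 - X2 := by
    by_contra h0
    push Not at h0
    have : c ^ 2 * (c ^ 2 - X2) ≤ 0 := mul_nonpos_of_nonneg_of_nonpos (sq_nonneg c) h0
    linarith
  obtain ⟨X, hXd⟩ : ∃ X, X = c ^ 2 - X2 := ⟨_, rfl⟩
  rw [← hXd] at h hX
  -- `G ^ 2 < 0`
  have hcs : p ^ 2 ≤ X2 * U2 := by
    rw [hp, hX2, hU2]
    exact Finset.sum_mul_sq_le_sq_mul_sq _ _ _
  have hce0 : 0 ≤ c * e := mul_nonneg hc0.le he0
  have hp2 : (c * e) ^ 2 < p ^ 2 := pow_lt_pow_left₀ hcon hce0 two_ne_zero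
  have hU20 : 0 ≤ U2 := by rw [hU2]; exact Finset.sum_nonneg fun i _ => sq_nonneg _
  have hneg : (e : ℝ) ^ 2 < U2 := by
    have h1 : X2 * U2 ≤ c ^ 2 * U2 := mul_le_mul_of_nonneg_right (by linarith) hU20
    have h2 : c ^ 2 * (e : ℝ) ^ 2 < c ^ 2 * U2 := by
      have e1 : (c * e) ^ 2 = c ^ 2 * (e : ℝ) ^ 2 := by ring
      linarith
    exact lt_of_mul_lt_mul_left h2 (sq_nonneg c)
  have hU2n : U2 = ((∑ i, u i ^ 2 : ℕ) : ℝ) := by rw [hU2]; push_cast; rfl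
  have hnegn : e ^ 2 < ∑ i, u i ^ 2 := by
    rw [hU2n] at hneg
    exact_mod_cast hneg
  have hip : ip e u e u < 0 := by
    unfold ip
    have h1 : ((e ^ 2 : ℕ) : ℤ) < ((∑ i, u i ^ 2 : ℕ) : ℤ) := by exact_mod_cast hnegn
    push_cast at h1
    have h2 : ∑ j, (u j : ℤ) * u j = ∑ j, (u j : ℤ) ^ 2 :=
      Finset.sum_congr rfl fun j _ => by ring
    rw [h2]
    have h3 : (e : ℤ) * e = (e : ℤ) ^ 2 := by ring
    omega
  have hkk : kk e u < 0 := by
    unfold kk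
    have h1 : ((3 * e : ℕ) : ℤ) < ((∑ i, u i : ℕ) : ℤ) := by exact_mod_cast hkn
    push_cast at h1
    omega
  -- a multiplicity at least four
  have hfour : ∃ i, 4 ≤ u i := by
    by_contra h0
    push Not at h0
    have h1 := T3.neg9 (w := u) (by
      have : (Finset.univ.filter fun i => 3 < u i) = ∅ := by
        refine Finset.filter_false_of_mem fun i _ => ?_
        have := h0 i
        omega
      rw [this]
      simp) hP hG hGe hGo hip
    omega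
  -- the largest and the smallest multiplicity
  obtain ⟨i1, -, hi1⟩ := Finset.exists_max_image (Finset.univ : Finset (Fin (r + 4))) u
    Finset.univ_nonempty
  obtain ⟨i4, hi4⟩ := hfour
  have hμ4 : 4 ≤ u i1 := hi4.trans (hi1 i4 (Finset.mem_univ _))
  have hxu := xu hP hG hGe hGo (k := i1) (by omega)
  obtain ⟨μ, hμd⟩ : ∃ μ : ℝ, μ = (u i1 : ℝ) := ⟨_, rfl⟩
  have hμ4r : 4 ≤ μ := by rw [hμd]; exact_mod_cast hμ4
  have hxuR : U2 ≤ (e : ℝ) ^ 2 + μ := by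
    rw [hU2n, hμd]
    exact_mod_cast hxu
  -- the degree
  have hdeg : (e : ℝ) ^ 2 < (16 * μ + 144) * μ ^ 2 := by
    by_contra h1
    push Not at h1
    rw [hμd] at h1
    have h2 := hfew (u i1) (fun i => hi1 i (Finset.mem_univ _)) (by exact_mod_cast h1)
    omega
  -- the comparison with `t x`
  obtain ⟨t, ht⟩ : ∃ t : ℝ, t = e / c := ⟨_, rfl⟩
  have htc : t * c = e := by rw [ht]; field_simp
  have ht0 : 0 ≤ t := by rw [ht]; positivity
  have hsum : ∑ i, ((u i : ℝ) - t * x i) ^ 2 = U2 - 2 * t * p + t ^ 2 * X2 := by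
    have e1 : ∀ i, ((u i : ℝ) - t * x i) ^ 2 =
        (u i : ℝ) ^ 2 - 2 * t * (x i * u i) + t ^ 2 * x i ^ 2 := fun i => by ring
    simp only [e1]
    rw [Finset.sum_add_distrib, Finset.sum_sub_distrib, ← Finset.mul_sum, ← Finset.mul_sum, hU2,
      hp, hX2]
  have htp : (e : ℝ) ^ 2 ≤ t * p := by
    have h1 : t * (c * e) ≤ t * p := mul_le_mul_of_nonneg_left hcon.le ht0
    have e1 : t * (c * e) = (t * c) * e := by ring
    rw [e1, htc] at h1
    have e2 : (e : ℝ) ^ 2 = e * e := by ring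
    linarith
  have hsum2 : ∑ i, ((u i : ℝ) - t * x i) ^ 2 ≤ μ - t ^ 2 * X := by
    rw [hsum]
    have e1 : t ^ 2 * X = (t * c) ^ 2 - t ^ 2 * X2 := by rw [hXd]; ring
    rw [e1, htc]
    linarith
  have hone : (μ - t * x i1) ^ 2 ≤ μ - t ^ 2 * X := by
    refine le_trans ?_ hsum2
    rw [hμd]
    exact Finset.single_le_sum (f := fun i => ((u i : ℝ) - t * x i) ^ 2)
      (fun i _ => sq_nonneg _) (Finset.mem_univ i1)
  have htM : t * x i1 ≤ t * M := mul_le_mul_of_nonneg_left (hxM i1) ht0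
  have htpos : 0 < t := by
    rcases ht0.eq_or_lt with h1 | h1
    · exfalso
      rw [← h1] at hone
      nlinarith
    · exact h1
  have htX0 : 0 < t ^ 2 * X := by positivity
  -- the left hand side
  have hL : 160 * (t * M) ^ 4 ≤ (e : ℝ) ^ 2 * (t ^ 2 * X) := by
    have h1 : t ^ 4 * (160 * M ^ 4) ≤ t ^ 4 * (c ^ 2 * X) :=
      mul_le_mul_of_nonneg_left h (by positivity)
    have e1 : (e : ℝ) ^ 2 * (t ^ 2 * X) = t ^ 4 * (c ^ 2 * X) := by rw [← htc]; ring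
    have e2 : 160 * (t * M) ^ 4 = t ^ 4 * (160 * M ^ 4) := by ring
    rw [e1, e2]
    exact h1
  have hL2 : 160 * (t * M) ^ 4 < (16 * μ + 144) * μ ^ 2 * (t ^ 2 * X) :=
    lt_of_le_of_lt hL (mul_lt_mul_of_pos_right hdeg htX0)
  have hμ0 : 0 ≤ (16 * μ + 144) * μ ^ 2 := by positivity
  rcases le_or_gt μ (t * M) with h1 | h1
  · have h2 : t ^ 2 * X ≤ μ := by
      have := sq_nonneg (μ - t * x i1)
      linarith
    have h3 : (16 * μ + 144) * μ ^ 2 * (t ^ 2 * X) ≤ (16 * μ + 144) * μ ^ 2 * μ :=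
      mul_le_mul_of_nonneg_left h2 hμ0
    have h4 : (16 * μ + 144) * μ ^ 2 * μ ≤ 160 * μ ^ 4 := by
      have h5 : (16 * μ + 144) * μ ^ 3 ≤ (160 * μ) * μ ^ 3 :=
        mul_le_mul_of_nonneg_right (by linarith) (by positivity)
      have e1 : (16 * μ + 144) * μ ^ 2 * μ = (16 * μ + 144) * μ ^ 3 := by ring
      have e2 : (160 * μ) * μ ^ 3 = 160 * μ ^ 4 := by ring
      linarith
    have h5 : μ ^ 4 ≤ (t * M) ^ 4 := pow_le_pow_left₀ (by linarith) h1 4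
    linarith
  · obtain ⟨s, hs⟩ : ∃ s, s = μ - t * M := ⟨_, rfl⟩
    have hs0 : 0 ≤ s := by linarith
    have h2 : s ^ 2 ≤ (μ - t * x i1) ^ 2 := pow_le_pow_left₀ hs0 (by linarith) 2
    have h3 : t ^ 2 * X ≤ μ - s ^ 2 := by linarith
    have h4 : (16 * μ + 144) * μ ^ 2 * (t ^ 2 * X) ≤ (16 * μ + 144) * μ ^ 2 * (μ - s ^ 2) :=
      mul_le_mul_of_nonneg_left h3 hμ0
    have h5 := poly_ineq hμ4r hs0 (by linarith)
    have e1 : t * M = μ - s := by rw [hs]; ring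
    rw [e1] at hL2
    linarith

end Pool.Agent.Y939.XN
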