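import Pool.Agent.Y939.NC.Std
import Pool.Agent.Y939.NC.Orbit
import Pool.Agent.Y939.WN.Large
import Pool.Agent.Y939.XN.Few

set_option autoImplicit false

/-!
# Curves with large sum of multiplicities
-/

namespace Pool.Agent.Y939.XN

open MvPolynomial Pool.Agent.W609 Pool.Agent.W609.CR Pool.Agent.TH167 Pool.Agent.TH167.SH
  Pool.Agent.H932R3 Pool.Agent.TH442.NF Pool.Agent.Y939.WN

/-- Irreducible negative curves which are not `(-1)`-curves have `K C > 0`. -/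
theorem kk_neg {r : ℕ} {P : Fin (r + 4) → Fin 2 → ℂ}
    (hP : AlgebraicIndependent ℚ (fun ij : Fin (r + 4) × Fin 2 => P ij.1 ij.2))
    {C : MvPolynomial (Fin 3) ℂ} {d : ℕ} {w : Fin (r + 4) → ℕ}
    (h1 : Irreducible C) (h2 : C.IsHomogeneous d)
    (h3 : ∀ j, CR.Ord (aff (P j)) (w j) C)
    (hne : ¬ (ip d w d w = -1 ∧ kk d w = 1)) (hneg : ip d w d w < 0) :
    kk d w < 0 := by
  obtain ⟨M, hM⟩ : ∃ M, ∀ j, w j ≤ M := ⟨∑ j, w j, fun j =>
    Finset.single_le_sum (fun _ _ => Nat.zero_le _) (Finset.mem_univ j)⟩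
  have hw : Few M d w := by
    left
    rw [Finset.filter_false_of_mem fun j _ => not_lt.2 (hM j)]
    simp
  obtain ⟨P1, d1, w1, C1, a1, a2, a3, a4, a5, a6, a7, a8⟩ :=
    Pool.Agent.Y939.NC.std_irr d P hP w hw C h1 h2 h3 hne
  obtain ⟨c1, c2, c3⟩ := quad_inv a5
  simp only at c1 c2 c3
  have hwd : ∀ j, w1 j ≤ d1 := fun j => van_le a2.ne_zero a3 (a4 j).1
  rw [← c2]
  by_contra hcon
  push Not at hcon
  have h4 : 0 ≤ kk d1 w1 := hcon
  rw [kk_cast] at h4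
  have h5 := red_ip a6 hwd (by omega)
  omega

/-- A curve with a large sum of multiplicities is not negative. -/
theorem nonneg_large {r : ℕ} {P : Fin (r + 4) → Fin 2 → ℂ}
    (hP : AlgebraicIndependent ℚ (fun ij : Fin (r + 4) × Fin 2 => P ij.1 ij.2))
    {C : MvPolynomial (Fin 3) ℂ} {d : ℕ} {w : Fin (r + 4) → ℕ}
    (h1 : Irreducible C) (h2 : C.IsHomogeneous d)
    (h3 : ∀ j, CR.Ord (aff (P j)) (w j) C) {μ : ℕ} (hμ : ∀ i, w i ≤ μ)
    (hl : 25000 * (μ + 1) ^ 2 ≤ ∑ i, w i) : ∑ i, w i ^ 2 ≤ d ^ 2 := by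
  by_contra hcon
  push Not at hcon
  have hip : ip d w d w < 0 := by
    unfold ip
    have h1 : ((d ^ 2 : ℕ) : ℤ) < ((∑ i, w i ^ 2 : ℕ) : ℤ) := by exact_mod_cast hcon
    push_cast at h1
    have h2 : ∑ j, (w j : ℤ) * w j = ∑ j, (w j : ℤ) ^ 2 :=
      Finset.sum_congr rfl fun j _ => by ring
    rw [h2]
    have h3 : (d : ℤ) * d = (d : ℤ) ^ 2 := by ring
    omega
  have hne : ¬ (ip d w d w = -1 ∧ kk d w = 1) := by
    rintro ⟨h4, h5⟩
    unfold ip at h4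
    unfold kk at h5
    have h6 : ∑ j, (w j : ℤ) * w j ≤ ∑ j, (μ : ℤ) * w j := by
      refine Finset.sum_le_sum fun j _ => mul_le_mul_of_nonneg_right ?_ (Int.natCast_nonneg _)
      exact_mod_cast hμ j
    rw [← Finset.mul_sum] at h6
    have h7 : (25000 : ℤ) * (μ + 1) ^ 2 ≤ ∑ i, (w i : ℤ) := by exact_mod_cast hl
    obtain ⟨A, hA⟩ : ∃ A, A = ∑ i, (w i : ℤ) := ⟨_, rfl⟩
    rw [← hA] at h5 h6 h7
    have h8 : A = 3 * d - 1 := by linarith
    have hd : (0 : ℤ) ≤ d := Int.natCast_nonneg d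
    have hμ0 : (0 : ℤ) ≤ μ := Int.natCast_nonneg μ
    rw [h8] at h6 h7
    have h9 : (d : ℤ) * d < 3 * μ * d := by nlinarith
    have h10 : (d : ℤ) < 3 * μ := by
      by_contra h11
      push Not at h11
      nlinarith
    nlinarith
  have hkk := kk_neg hP h1 h2 h3 hne hip
  have hchi : chi d w ≤ 0 := by
    have := two_chi d w
    omega
  have hL : Large d w := by
    refine ⟨Finset.univ, μ, fun i _ => hμ i, fun i hi => absurd (Finset.mem_univ i) hi, ?_⟩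
    have h4 : ((25000 * (μ + 1) ^ 2 : ℕ) : ℤ) ≤ ((∑ i, w i : ℕ) : ℤ) := by exact_mod_cast hl
    push_cast at h4
    have h5 := abs_nonneg (((d + 2).choose 2 : ℤ) - ∑ i, ((w i + 1).choose 2 : ℤ))
    linarith
  have hE := large_exp hL hP
  rw [expDim_iff] at hE
  have hmem : C ∈ VS (fun j => aff (P j)) w d := (mem_VS _ _ _ _).2 ⟨h2, fun j => (h3 j).1⟩
  have hfin := vs_fin (fun j => aff (P j)) w d
  have hpos : 0 < Module.finrank ℂ ↥(VS (fun j => aff (P j)) w d) :=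
    Module.finrank_pos_iff.2 ⟨⟨C, hmem⟩, 0, fun h7 => h1.ne_zero (congrArg Subtype.val h7)⟩
  omega

end Pool.Agent.Y939.XN
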