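import Pool.Agent.Y939.NC.Orbit
import Pool.Agent.H248R6.Move
import Pool.Agent.H248R6.Der

set_option autoImplicit false

/-!
# The inequality of Xu and Ein-Lazarsfeld

An irreducible curve of degree `e` with multiplicities exactly `u j` at generic points satisfies
`∑ u j ^ 2 ≤ e ^ 2 + u k` for every `k` with `u k ≥ 1`.
-/

namespace Pool.Agent.Y939.XN

open MvPolynomial Pool.Agent.W609 Pool.Agent.W609.CR Pool.Agent.TH167 Pool.Agent.TH167.SH
  Pool.Agent.H932R3 Pool.Agent.TH442.NF

open Pool.Agent.H248R5 (forms mem_forms tau)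
open Pool.Agent.H248R6 (dG move back dG_homog exists_der)

/-- Some partial derivative of a form of positive degree is not zero. -/
theorem exists_pderiv {K : Type} [Field K] [CharZero K] {m : ℕ} {f : MvPolynomial (Fin 2) K}
    (hf : f.IsHomogeneous (m + 1)) (h0 : f ≠ 0) : ∃ a, pderiv a f ≠ 0 := by
  by_contra hcon
  push Not at hcon
  have h1 := hf.sum_X_mul_pderiv
  have h2 : ∑ i, X i * pderiv i f = 0 := Finset.sum_eq_zero fun i _ => by rw [hcon i, mul_zero]
  rw [h2] at h1
  have h3 : ((m + 1 : ℕ) : K) • f = 0 := by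
    rw [Nat.cast_smul_eq_nsmul]
    exact h1.symm
  rcases smul_eq_zero.1 h3 with h | h
  · rw [Nat.cast_add, Nat.cast_one] at h
    exact Nat.cast_add_one_ne_zero m h
  · exact h0 h

/-- **The inequality of Xu and Ein-Lazarsfeld.** -/
theorem xu {K : Type} [Field K] [CharZero K] {s : ℕ} {P : Fin s → Fin 2 → K}
    (hP : AlgebraicIndependent ℚ (fun ij : Fin s × Fin 2 => P ij.1 ij.2))
    {G : MvPolynomial (Fin 3) K} {e : ℕ} {u : Fin s → ℕ} (hG : Irreducible G)
    (hGe : G.IsHomogeneous e) (hGo : ∀ j, Ord (aff (P j)) (u j) G) {k : Fin s} (hk : 1 ≤ u k) :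
    ∑ j, u j ^ 2 ≤ e ^ 2 + u k := by
  classical
  obtain ⟨m, hm⟩ : ∃ m, u k = m + 1 := ⟨u k - 1, by omega⟩
  have hGf : G ∈ forms u P e := by
    rw [← vs_eq_forms]
    exact (mem_VS _ _ _ _).2 ⟨hGe, fun j => (hGo j).1⟩
  -- the leading form at `P k`
  have hlead : homogeneousComponent (m + 1) (tau (P k) G) ≠ 0 := by
    intro h0
    have h1 : G ∈ forms (Function.update u k (m + 2)) P e := by
      refine back (w := Function.update u k (m + 2)) (k := k) (m := m + 1) ?_ ?_ h0
      · rw [Function.update_self]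
      · rw [Function.update_idem, ← hm, Function.update_eq_self]
        exact hGf
    rw [← vs_eq_forms, mem_VS] at h1
    have h2 := h1.2 k
    rw [Function.update_self] at h2
    refine (hGo k).2 ?_
    rw [hm]
    exact h2
  obtain ⟨a, ha⟩ := exists_pderiv (homogeneousComponent_isHomogeneous (m + 1) _) hlead
  obtain ⟨D, hD⟩ := exists_der _ hP (k, a)
  have hD' : ∀ i b, D (P i b) = if i = k ∧ b = a then 1 else 0 := by
    intro i b
    by_cases h : i = k ∧ b = a
    · rw [if_pos h]
      exact (hD (i, b)).1 (by rw [h.1, h.2])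
    · rw [if_neg h]
      refine (hD (i, b)).2 fun h1 => h ?_
      have h2 := congrArg Prod.fst h1
      have h3 := congrArg Prod.snd h1
      exact ⟨h2.symm, h3.symm⟩
  obtain ⟨h1, h2⟩ := move hm D hD' hGf
  obtain ⟨H, hH⟩ : ∃ H, H = dG D G := ⟨_, rfl⟩
  rw [← hH] at h1 h2
  have hHc : homogeneousComponent m (tau (P k) H) ≠ 0 := by
    rw [h2]
    exact neg_ne_zero.2 ha
  have hH0 : H ≠ 0 := by
    rintro rfl
    exact hHc (by rw [map_zero, map_zero])
  have hHh : H.IsHomogeneous e := by
    rw [hH]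
    exact dG_homog D hGe
  have hnd : ¬ G ∣ H := by
    rintro ⟨Q, hQ⟩
    have hQ0 : Q ≠ 0 := by
      rintro rfl
      exact hH0 (by rw [hQ, mul_zero])
    have hQd : Q.totalDegree = 0 := by
      have t1 : H.totalDegree = e := hHh.totalDegree hH0
      have t2 : G.totalDegree = e := hGe.totalDegree hG.ne_zero
      rw [hQ, MvPolynomial.totalDegree_mul_of_isDomain hG.ne_zero hQ0, t2] at t1
      omega
    obtain ⟨c, hc⟩ : ∃ c : K, Q = C c := ⟨coeff 0 Q, (MvPolynomial.totalDegree_eq_zero_iff_eq_C).1 hQd⟩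
    have h3 : H ∈ forms u P e := by
      have e3 : H = c • G := by
        rw [hQ, hc, mul_comm, MvPolynomial.smul_eq_C_mul]
      rw [e3]
      exact Submodule.smul_mem _ _ hGf
    have h4 := (mem_forms.1 h3).2 k
    rw [mem_pow_idealOfVars_iff', hm] at h4
    apply hHc
    ext s
    rw [coeff_homogeneousComponent, coeff_zero]
    split_ifs with hs
    · exact h4 s (by omega)
    · rfl
  have hvan : ∀ j, Van (aff (P j)) (Function.update u k m j) H := by
    have h3 : H ∈ VS (fun j => aff (P j)) (Function.update u k m) e := by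
      rw [vs_eq_forms]
      exact h1
    exact ((mem_VS _ _ _ _).1 h3).2
  have hb := bez (inj_of_alg hP) hG hGe (fun j => (hGo j).1) hH0 hHh hvan hnd
  have hs : ∑ j, u j ^ 2 = ∑ j, u j * Function.update u k m j + u k := by
    have h3 : ∑ j, u j ^ 2 = ∑ j, (u j * Function.update u k m j + if j = k then u k else 0) := by
      refine Finset.sum_congr rfl fun j _ => ?_
      by_cases hj : j = k
      · subst hj
        rw [Function.update_self, if_pos rfl]
        rw [hm]
        ring
      · rw [Function.update_of_ne hj, if_neg hj]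
        ring
    rw [h3, Finset.sum_add_distrib, Finset.sum_ite_eq' Finset.univ k, if_pos (Finset.mem_univ k)]
  rw [hs]
  have e2 : e ^ 2 = e * e := sq e
  omega

end Pool.Agent.Y939.XN
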